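import Pool.Agent.H60.FG.Rows

set_option autoImplicit false

open scoped ENNReal NNReal
open scoped Classical

namespace Pool.Agent.H60.FG

open Pool.Agent.H14.NS

section Cut

variable {κ : Type*}

lemma nsq (v : L 2 κ) : ‖v‖ ^ 2 = ∑' q, ‖v q‖ ^ 2 := by
  have h := lp.norm_rpow_eq_tsum (p := 2) (by norm_num) v
  have h2 : (2 : ℝ≥0∞).toReal = ((2 : ℕ) : ℝ) := by norm_num
  rw [h2] at h
  simpa only [Real.rpow_natCast] using h

lemma sq_summable (v : L 2 κ) : Summable fun q => ‖v q‖ ^ 2 := by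
  have h := (memℓp_gen_iff (p := 2) (by norm_num)).1 (lp.memℓp v)
  have h2 : (2 : ℝ≥0∞).toReal = ((2 : ℕ) : ℝ) := by norm_num
  rw [h2] at h
  simpa only [Real.rpow_natCast] using h

/-- restriction to a set -/
noncomputable def cut (E : Set κ) : L 2 κ →L[ℂ] L 2 κ :=
  (extL (Subtype.val : E → κ) Subtype.val_injective) ∘L
    (compL 2 two_ne_top' (Subtype.val : E → κ) Subtype.val_injective)

lemma cut_mem (E : Set κ) (v : L 2 κ) {q : κ} (hq : q ∈ E) : cut E v q = v q := by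
  show extL (Subtype.val : E → κ) Subtype.val_injective
    (compL 2 two_ne_top' (Subtype.val : E → κ) Subtype.val_injective v) ((⟨q, hq⟩ : E) : κ) = _
  rw [extL_apply]
  rfl

lemma cut_notMem (E : Set κ) (v : L 2 κ) {q : κ} (hq : q ∉ E) : cut E v q = 0 := by
  exact extL_apply_ne (Subtype.val : E → κ) Subtype.val_injective
    (compL 2 two_ne_top' (Subtype.val : E → κ) Subtype.val_injective v) q
    (fun i h => hq (h ▸ i.2))

lemma en_eq (E : Set κ) (v : L 2 κ) : en E (fun q => v q) = ‖cut E v‖ ^ 2 := by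
  rw [nsq]
  unfold en
  refine tsum_congr fun q => ?_
  by_cases h : q ∈ E
  · rw [if_pos h, cut_mem E v h]
  · rw [if_neg h, cut_notMem E v h]; simp

lemma inner_cut (E : Set κ) (v d : L 2 κ) (hd : ∀ q, q ∉ E → d q = 0) :
    inner ℂ v d = inner ℂ (cut E v) d := by
  rw [lp.inner_eq_tsum, lp.inner_eq_tsum]
  refine tsum_congr fun q => ?_
  by_cases h : q ∈ E
  · rw [cut_mem E v h]
  · rw [hd q h]; simp

end Cut

section Loc

variable {ι : Type}

lemma loc {v : ι × FreeGroup ι → ℂ} {P : FreeGroup ι → ℂ} (hP : Pot v P) (A : Set (FreeGroup ι))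
    (hv : ∀ k z, z ∈ A → z * (FreeGroup.of k)⁻¹ ∈ A → v (k, z) = 0) :
    ∀ (L : List (ι × Bool)) (x : FreeGroup ι),
      (∀ w, FreeGroup.norm w ≤ L.length → x * w ∈ A) → P (x * FreeGroup.mk L) = P x := by
  intro L
  induction L with
  | nil => intro x _; rw [← FreeGroup.one_eq_mk, mul_one]
  | cons l L ih =>
    intro x hx
    have h1 : (FreeGroup.mk (l :: L) : FreeGroup ι) = FreeGroup.mk [l] * FreeGroup.mk L := by
      rw [FreeGroup.mul_mk]; rfl
    have hn : FreeGroup.norm (FreeGroup.mk [l] : FreeGroup ι) ≤ 1 := by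
      have := FreeGroup.norm_mk_le (L₁ := [l]) (α := ι)
      simpa using this
    rw [h1, ← mul_assoc, ih]
    · have hx0 : x ∈ A := by simpa using hx 1 (by simp)
      have hx1 : x * FreeGroup.mk [l] ∈ A := hx _ (hn.trans (by simp))
      obtain ⟨k, bb⟩ := l
      cases bb with
      | true =>
        have h2 : (FreeGroup.mk [(k, true)] : FreeGroup ι) = FreeGroup.of k := rfl
        rw [h2] at hx1 ⊢
        rw [hP.step, hv k _ hx1 (by simpa using hx0), sub_zero]
      | false =>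
        have h2 : (FreeGroup.mk [(k, false)] : FreeGroup ι) = (FreeGroup.of k)⁻¹ := by
          rw [FreeGroup.of, FreeGroup.inv_mk]; rfl
        rw [h2] at hx1 ⊢
        have h3 := hP k x
        rw [hv k x hx0 hx1] at h3
        exact sub_eq_zero.1 h3
    · intro w hw
      rw [mul_assoc]
      refine hx _ ?_
      refine (FreeGroup.norm_mul_le _ _).trans ?_
      rw [List.length_cons]
      omega

lemma loc' {v : ι × FreeGroup ι → ℂ} {P : FreeGroup ι → ℂ} (hP : Pot v P) (A : Set (FreeGroup ι))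
    (hv : ∀ k z, z ∈ A → z * (FreeGroup.of k)⁻¹ ∈ A → v (k, z) = 0) (R : ℕ) (x : FreeGroup ι)
    (hx : ∀ w, FreeGroup.norm w ≤ R → x * w ∈ A) (y : FreeGroup ι) (hy : FreeGroup.norm y ≤ R) :
    P (x * y⁻¹) - P x = 0 := by
  have h := loc hP A hv y⁻¹.toWord x (by
    intro w hw
    refine hx w (hw.trans ?_)
    show FreeGroup.norm y⁻¹ ≤ R
    rw [FreeGroup.norm_inv_eq]; exact hy)
  rw [FreeGroup.mk_toWord] at h
  rw [h, sub_self]

lemma Op_loc {m : ℕ} (b : Fin m → FreeGroup ι →₀ ℂ) (R : ℕ)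
    (hR : ∀ i, ∀ y ∈ (b i).support, FreeGroup.norm y ≤ R) (v : H (FreeGroup ι) ι)
    (A : Set (FreeGroup ι))
    (hv : ∀ k z, z ∈ A → z * (FreeGroup.of k)⁻¹ ∈ A → v (k, z) = 0) (i : Fin m)
    (x : FreeGroup ι) (hx : ∀ w, FreeGroup.norm w ≤ R → x * w ∈ A) : Op b v (i, x) = 0 := by
  obtain ⟨P, -, hP⟩ := exists_pot (fun q => v q)
  rw [Op_apply b hP]
  refine Finset.sum_eq_zero fun y hy => ?_
  rw [loc' hP A hv R x hx y (hR i y hy), mul_zero]

end Loc

section M1

variable {ι : Type} {m : ℕ}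

/-- local solutions on a branch -/
noncomputable def Ls (b : Fin m → FreeGroup ι →₀ ℂ) (R : ℕ) (s : ι × Bool) :
    Submodule ℂ (H (FreeGroup ι) ι) where
  carrier := {v | (∀ q, q ∉ Es s → v q = 0) ∧
    ∀ i x, (∀ w, FreeGroup.norm w ≤ R → x * w ∈ Hs s) → Op b v (i, x) = 0}
  add_mem' := by
    rintro v w ⟨h1, h2⟩ ⟨h3, h4⟩
    refine ⟨fun q hq => ?_, fun i x hx => ?_⟩
    · show v q + w q = 0
      rw [h1 q hq, h3 q hq, add_zero]
    · rw [map_add]
      show Op b v (i, x) + Op b w (i, x) = 0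
      rw [h2 i x hx, h4 i x hx, add_zero]
  zero_mem' := ⟨fun q _ => rfl, fun i x _ => by rw [map_zero]; rfl⟩
  smul_mem' := by
    rintro c v ⟨h1, h2⟩
    refine ⟨fun q hq => ?_, fun i x hx => ?_⟩
    · show c * v q = 0
      rw [h1 q hq, mul_zero]
    · rw [map_smul]
      show c * Op b v (i, x) = 0
      rw [h2 i x hx, mul_zero]

lemma cut_mem_Ls (b : Fin m → FreeGroup ι →₀ ℂ) (R : ℕ)
    (hR : ∀ i, ∀ y ∈ (b i).support, FreeGroup.norm y ≤ R) (s : ι × Bool)
    (ψ : H (FreeGroup ι) ι) (hψ : Op b ψ = 0) : cut (Es s) ψ ∈ Ls b R s := by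
  refine ⟨fun q hq => cut_notMem _ _ hq, fun i x hx => ?_⟩
  have h1 : Op b (ψ - cut (Es s) ψ) (i, x) = 0 := by
    refine Op_loc b R hR _ (Hs s) ?_ i x hx
    intro k z h1 h2
    show ψ (k, z) - cut (Es s) ψ (k, z) = 0
    rw [cut_mem (Es s) ψ (show (k, z) ∈ Es s from ⟨h1, h2⟩), sub_self]
  rw [map_sub, hψ, zero_sub] at h1
  have h2 : -(Op b (cut (Es s) ψ) (i, x)) = 0 := h1
  exact neg_eq_zero.1 h2

lemma Ls_ker (G1 : T_G1) (b : Fin m → FreeGroup ι →₀ ℂ) (R : ℕ)
    (hR : ∀ i, ∀ y ∈ (b i).support, FreeGroup.norm y ≤ R) (s : ι × Bool)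
    (d : H (FreeGroup ι) ι) (hd : d ∈ Ls b R s) (hB : ∀ q ∈ Bm (2 * R + 1), d q = 0) :
    Op b d = 0 := by
  ext ⟨i, x⟩
  by_cases hx : ∀ w, FreeGroup.norm w ≤ R → x * w ∈ Hs s
  · exact hd.2 i x hx
  · push Not at hx
    obtain ⟨w0, hw0, hx0⟩ := hx
    refine Op_loc b R hR d {z | ∃ w, FreeGroup.norm w ≤ R ∧ z = x * w} ?_ i x
      (fun w hw => ⟨w, hw, rfl⟩)
    rintro k z ⟨w, hw, rfl⟩ -
    by_contra hne
    have h1 : (k, x * w) ∈ Es s := by
      by_contra h; exact hne (hd.1 _ h)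
    have h2 : 2 * R + 1 < FreeGroup.norm (x * w) := by
      by_contra h
      push Not at h
      exact hne (hB _ h)
    have h3 : FreeGroup.norm (w⁻¹ * w0) < FreeGroup.norm (x * w) := by
      have := FreeGroup.norm_mul_le w⁻¹ w0
      rw [FreeGroup.norm_inv_eq] at this
      omega
    have h4 := G1 ι s (x * w) (w⁻¹ * w0) h1.1 h3
    apply hx0
    have h5 : x * w * (w⁻¹ * w0) = x * w0 := by group
    rwa [h5] at h4

lemma ball_finite [Fintype ι] (M : ℕ) : (Bm M : Set (ι × FreeGroup ι)).Finite := by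
  have h1 : {x : FreeGroup ι | FreeGroup.norm x ≤ M}.Finite := by
    refine Set.Finite.of_finite_image (f := FreeGroup.toWord) ?_
      (Set.injOn_of_injective FreeGroup.toWord_injective)
    refine (List.finite_length_le (ι × Bool) M).subset ?_
    rintro _ ⟨x, hx, rfl⟩
    exact hx
  refine (Set.finite_univ.prod h1).subset ?_
  rintro ⟨k, x⟩ h
  exact ⟨trivial, h⟩

theorem pf_M1 (G1 : T_G1) : T_M1 := by
  intro ι _ m b R hR
  have hfin : (Bm (2 * R + 1) : Set (ι × FreeGroup ι)).Finite := ball_finite _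
  have : Fintype (Bm (2 * R + 1) : Set (ι × FreeGroup ι)) := hfin.fintype
  -- one letter
  have hone : ∀ s : ι × Bool, ∃ C : ℝ, 1 ≤ C ∧ ∀ v ∈ Ls b R s, ∃ v' ∈ Ls b R s,
      (∀ q ∈ Bm (2 * R + 1), v' q = v q) ∧
      ‖v'‖ ^ 2 ≤ C * en (Es s ∩ Bm (2 * R + 1)) (fun q => v q) := by
    intro s
    let r : Ls b R s →ₗ[ℂ] ((Bm (2 * R + 1) : Set (ι × FreeGroup ι)) → ℂ) :=
      { toFun := fun v q => (v : H (FreeGroup ι) ι) q
        map_add' := fun v w => rfl
        map_smul' := fun c v => rfl }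
    obtain ⟨U, hU⟩ := r.rangeRestrict.exists_rightInverse_of_surjective r.range_rangeRestrict
    let U' : r.range →ₗ[ℂ] H (FreeGroup ι) ι := (Ls b R s).subtype ∘ₗ U
    let U'' : r.range →L[ℂ] H (FreeGroup ι) ι := LinearMap.toContinuousLinearMap U'
    refine ⟨‖U''‖ ^ 2 + 1, by nlinarith [sq_nonneg ‖U''‖], fun v hv => ?_⟩
    let η : r.range := r.rangeRestrict ⟨v, hv⟩
    refine ⟨(U η : H (FreeGroup ι) ι), (U η).2, ?_, ?_⟩
    · intro q hq
      have h1 : r.rangeRestrict (U η) = η := LinearMap.congr_fun hU η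
      have h2 := congrArg (fun z : r.range => (z : (Bm (2 * R + 1) : Set (ι × FreeGroup ι)) → ℂ)
        ⟨q, hq⟩) h1
      exact h2
    · have h1 : ‖(U η : H (FreeGroup ι) ι)‖ ≤ ‖U''‖ * ‖η‖ := U''.le_opNorm η
      have h0 : 0 ≤ en (Es s ∩ Bm (2 * R + 1)) (fun q => v q) := by
        unfold en
        exact tsum_nonneg fun q => by split_ifs <;> positivity
      have h2 : ‖η‖ ≤ √(en (Es s ∩ Bm (2 * R + 1)) (fun q => v q)) := by
        have h3 : ‖η‖ = ‖(η : (Bm (2 * R + 1) : Set (ι × FreeGroup ι)) → ℂ)‖ := rfl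
        rw [h3, pi_norm_le_iff_of_nonneg (Real.sqrt_nonneg _)]
        rintro ⟨q, hq⟩
        refine Real.le_sqrt_of_sq_le ?_
        show ‖v q‖ ^ 2 ≤ _
        by_cases hE : q ∈ Es s
        · have hs : Summable fun q' => if q' ∈ Es s ∩ Bm (2 * R + 1) then ‖v q'‖ ^ 2 else 0 := by
            refine Summable.of_nonneg_of_le (fun q' => by split_ifs <;> positivity) (fun q' => ?_)
              (sq_summable v)
            split_ifs
            · exact le_rfl
            · positivity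
          have h4 := hs.le_tsum q (fun q' _ => by split_ifs <;> positivity)
          rw [if_pos (show q ∈ Es s ∩ Bm (2 * R + 1) from ⟨hE, hq⟩)] at h4
          unfold en
          refine h4.trans (le_of_eq (tsum_congr fun q' => ?_))
          by_cases h : q' ∈ Es s ∩ Bm (2 * R + 1)
          · rw [if_pos h, if_pos h]
          · rw [if_neg h, if_neg h]
        · rw [hv.1 q hE]
          simpa using h0
      have h5 : ‖(U η : H (FreeGroup ι) ι)‖ ^ 2 ≤
          (‖U''‖ * √(en (Es s ∩ Bm (2 * R + 1)) (fun q => v q))) ^ 2 :=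
        pow_le_pow_left₀ (norm_nonneg _)
          (h1.trans (mul_le_mul_of_nonneg_left h2 (norm_nonneg U''))) 2
      rw [mul_pow, Real.sq_sqrt h0] at h5
      nlinarith
  choose C hC1 hC using hone
  refine ⟨∑ s, C s + 1, ?_, ?_⟩
  · have : 0 ≤ ∑ s, C s := Finset.sum_nonneg fun s _ => zero_le_one.trans (hC1 s)
    linarith
  intro s ψ hψ hort
  have hCs : C s ≤ ∑ s, C s + 1 := by
    have := Finset.single_le_sum (f := C) (fun s _ => zero_le_one.trans (hC1 s))
      (Finset.mem_univ s)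
    linarith
  have h0 : 0 ≤ en (Es s ∩ Bm (2 * R + 1)) (fun q => ψ q) := by
    unfold en
    exact tsum_nonneg fun q => by split_ifs <;> positivity
  set v := cut (Es s) ψ with hv
  have hvL : v ∈ Ls b R s := cut_mem_Ls b R hR s ψ hψ
  obtain ⟨v', hv'L, hv'B, hv'n⟩ := hC s v hvL
  have hdB : ∀ q ∈ Bm (2 * R + 1), (v - v') q = 0 := fun q hq => by
      show v q - v' q = 0
      rw [hv'B q hq, sub_self]
  have hd := hort (v - v') (Ls_ker G1 b R hR s _ (Submodule.sub_mem _ hvL hv'L) hdB) hdB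
    (fun q hq => by
      show v q - v' q = 0
      rw [hvL.1 q hq, hv'L.1 q hq, sub_self])
  rw [inner_cut (Es s) ψ _ (fun q hq => by
      show v q - v' q = 0
      rw [hvL.1 q hq, hv'L.1 q hq, sub_self]), ← hv, inner_sub_right, sub_eq_zero] at hd
  have h1 : ‖v‖ ^ 2 ≤ ‖v‖ * ‖v'‖ := by
    have h2 : ‖(inner ℂ v v : ℂ)‖ = ‖v‖ ^ 2 := by
      rw [inner_self_eq_norm_sq_to_K]
      simp
    rw [← h2, hd]
    exact norm_inner_le_norm _ _
  have h3 : ‖v‖ ≤ ‖v'‖ := by
    by_contra hlt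
    push Not at hlt
    have h4 : 0 < ‖v‖ := (norm_nonneg _).trans_lt hlt
    nlinarith
  have h5 : en (Es s ∩ Bm (2 * R + 1)) (fun q => v q) =
      en (Es s ∩ Bm (2 * R + 1)) (fun q => ψ q) := by
    unfold en
    refine tsum_congr fun q => ?_
    by_cases h : q ∈ Es s ∩ Bm (2 * R + 1)
    · rw [if_pos h, if_pos h]
      show ‖v q‖ ^ 2 = ‖ψ q‖ ^ 2
      rw [hv, cut_mem (Es s) ψ h.1]
    · rw [if_neg h, if_neg h]
  rw [en_eq (Es s) ψ, ← hv]
  calc ‖v‖ ^ 2 ≤ ‖v'‖ ^ 2 := pow_le_pow_left₀ (norm_nonneg _) h3 2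
    _ ≤ C s * en (Es s ∩ Bm (2 * R + 1)) (fun q => v q) := hv'n
    _ ≤ _ := by
      rw [h5]
      exact mul_le_mul_of_nonneg_right hCs h0

end M1

end Pool.Agent.H60.FG
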