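import Pool.Agent.H14.NS.Rank

set_option autoImplicit false

open scoped ENNReal NNReal
open scoped Classical

namespace Pool.Agent.H60.FG

open Pool.Agent.H14.NS

/-- `P` is a potential of the edge function `ψ` -/
def Pot {ι : Type*} (ψ : ι × FreeGroup ι → ℂ) (P : FreeGroup ι → ℂ) : Prop :=
  ∀ k x, P (x * (FreeGroup.of k)⁻¹) - P x = ψ (k, x)

/-- the branch of the words which begin with the letter `s` -/
def Hs {ι : Type*} (s : ι × Bool) : Set (FreeGroup ι) := {x | x.toWord.head? = some s}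

/-- the edges of the branch -/
def Es {ι : Type*} (s : ι × Bool) : Set (ι × FreeGroup ι) :=
  {q | q.2 ∈ Hs s ∧ q.2 * (FreeGroup.of q.1)⁻¹ ∈ Hs s}

/-- `p` can be put before words which begin with `s` -/
def RC {ι : Type*} (p : FreeGroup ι) (s : ι × Bool) : Prop :=
  FreeGroup.IsReduced (p.toWord ++ [s])

/-- head stability -/
def T_G1 : Prop := ∀ (ι : Type) (s : ι × Bool) (z u : FreeGroup ι), z ∈ Hs s →
  FreeGroup.norm u < FreeGroup.norm z → z * u ∈ Hs s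

/-- reduced products -/
def T_G2 : Prop := ∀ (ι : Type) (s : ι × Bool) (p z : FreeGroup ι), RC p s → z ∈ Hs s →
  FreeGroup.norm (p * z) = FreeGroup.norm p + FreeGroup.norm z ∧
  (∀ s' , p ∈ Hs s' → p * z ∈ Hs s')

/-- splitting: a word of length `> M` beginning with `s` -/
def T_G3 : Prop := ∀ (ι : Type) (s : ι × Bool) (M : ℕ) (z : FreeGroup ι), z ∈ Hs s → 1 ≤ M →
  M < FreeGroup.norm z → ∃ (q z' : FreeGroup ι) (s' : ι × Bool), z = q * z' ∧ q ∈ Hs s ∧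
    FreeGroup.norm q = M ∧ RC q s' ∧ z' ∈ Hs s' ∧ FreeGroup.norm z' + M = FreeGroup.norm z ∧
    q * FreeGroup.mk [s'] ∈ Hs s ∧ FreeGroup.norm (q * FreeGroup.mk [s']) = M + 1 ∧
    (∀ p : FreeGroup ι, RC p s → RC (p * q) s')

/-- short paths inside a branch -/
def T_G4 : Prop := ∀ (ι : Type) (s : ι × Bool) (ψ : ι × FreeGroup ι → ℂ) (P : FreeGroup ι → ℂ)
  (e : ℝ) (z : FreeGroup ι), Pot ψ P → 0 ≤ e → (∀ q ∈ Es s, ‖ψ q‖ ≤ e) → z ∈ Hs s →
  ‖P z - P (FreeGroup.mk [s])‖ ≤ (FreeGroup.norm z - 1 : ℕ) * e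

/-- the pairing -/
def T_PAIR : Prop := ∀ (ι : Type) (m : ℕ) (b : Fin m → FreeGroup ι →₀ ℂ) (P : FreeGroup ι → ℂ)
  (B : ℝ) (k : ι), 0 < B → (∀ x, ‖P x‖ ≤ B) → (∀ i x, ∑ y ∈ (b i).support, b i y * P (x * y⁻¹) = 0) →
  ∀ c : Fin m → FreeGroup ι → ℂ, (∀ i, Summable (c i)) →
    ‖P 1 - P (FreeGroup.of k)⁻¹‖ / B ≤
      ∑' x, ‖(Set.indicator {1} 1 x - Set.indicator {FreeGroup.of k} 1 x : ℂ) -
        ∑ i, ∑' y, b i y * c i (y⁻¹ * x)‖

end Pool.Agent.H60.FG
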