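import Pool.Agent.H60.FG.Pot2
import Pool.Agent.H14.FG.GEN

set_option autoImplicit false

open scoped ENNReal NNReal
open scoped Classical

namespace Pool.Agent.H60.FG

open Pool.Agent.H14.NS Pool.Agent.H14.FG

/-- the pairing in any group -/
theorem pair_gen {G : Type*} [Group G] {m : ℕ} (b : Fin m → G →₀ ℂ) (P : G → ℂ) (B : ℝ)
    (hB : 0 < B) (hP : ∀ x, ‖P x‖ ≤ B)
    (hb : ∀ i x, ∑ y ∈ (b i).support, b i y * P (x * y⁻¹) = 0)
    (g : G → ℂ) (hg : Summable g) (v : ℂ) (hv : HasSum (fun x => g x * P x⁻¹) v)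
    (c : Fin m → G → ℂ) (hc : ∀ i, Summable (c i)) :
    ‖v‖ / B ≤ ∑' x, ‖g x - ∑ i, ∑' y, b i y * c i (y⁻¹ * x)‖ := by
  have hconv : ∀ i x, ∑' y, b i y * c i (y⁻¹ * x) = ∑ y ∈ (b i).support, b i y * c i (y⁻¹ * x) := by
    intro i x
    refine tsum_eq_sum fun y hy => ?_
    rw [Finsupp.notMem_support_iff.1 hy, zero_mul]
  have hzero : ∀ i, HasSum (fun x => (∑ y ∈ (b i).support, b i y * c i (y⁻¹ * x)) * P x⁻¹) 0 := by
    intro i
    have h1 : ∀ y ∈ (b i).support, HasSum (fun x => b i y * (c i (y⁻¹ * x) * P x⁻¹))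
        (b i y * ∑' z, c i z * P (z⁻¹ * y⁻¹)) := fun y _ =>
      (hasSum_conv_pair (hc i) P B hP y).mul_left _
    have h2 := hasSum_sum h1
    have hs : ∀ y ∈ (b i).support, Summable (fun z => b i y * (c i z * P (z⁻¹ * y⁻¹))) := by
      intro y _
      refine Summable.mul_left _ ?_
      refine Summable.of_norm_bounded (g := fun z => ‖c i z‖ * B) ((hc i).norm.mul_right B)
        fun z => ?_
      rw [norm_mul]
      exact mul_le_mul_of_nonneg_left (hP _) (norm_nonneg _)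
    have h3 : ∑ y ∈ (b i).support, b i y * ∑' z, c i z * P (z⁻¹ * y⁻¹) = 0 := by
      have h4 : ∑ y ∈ (b i).support, b i y * ∑' z, c i z * P (z⁻¹ * y⁻¹) =
          ∑ y ∈ (b i).support, ∑' z, b i y * (c i z * P (z⁻¹ * y⁻¹)) :=
        Finset.sum_congr rfl fun y _ => tsum_mul_left.symm
      rw [h4, ← Summable.tsum_finsetSum hs]
      have h5 : ∀ z, ∑ y ∈ (b i).support, b i y * (c i z * P (z⁻¹ * y⁻¹)) = 0 := by
        intro z
        have h6 := hb i z⁻¹
        calc ∑ y ∈ (b i).support, b i y * (c i z * P (z⁻¹ * y⁻¹)) =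
            c i z * ∑ y ∈ (b i).support, b i y * P (z⁻¹ * y⁻¹) := by
              rw [Finset.mul_sum]
              exact Finset.sum_congr rfl fun y _ => by ring
          _ = 0 := by rw [h6, mul_zero]
      simp only [h5, tsum_zero]
    rw [h3] at h2
    refine h2.congr_fun fun x => ?_
    rw [Finset.sum_mul]
    exact Finset.sum_congr rfl fun y _ => by ring
  obtain ⟨f, hf⟩ : ∃ f : G → ℂ, f = fun x => g x - ∑ i, ∑' y, b i y * c i (y⁻¹ * x) := ⟨_, rfl⟩
  have hfs : HasSum (fun x => f x * P x⁻¹) v := by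
    have h1 := hv.sub (hasSum_sum fun i (_ : i ∈ (Finset.univ : Finset (Fin m))) => hzero i)
    rw [Finset.sum_const_zero, sub_zero] at h1
    refine h1.congr_fun fun x => ?_
    rw [hf]
    simp only [hconv]
    rw [sub_mul, Finset.sum_mul]
  have hfn : Summable (fun x => ‖f x‖) := by
    rw [hf]
    refine Summable.norm ?_
    refine Summable.sub hg ?_
    refine summable_sum fun i _ => ?_
    simp only [hconv]
    refine summable_sum fun y _ => ?_
    exact ((Equiv.mulLeft y⁻¹).summable_iff.2 (hc i)).mul_left _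
  have h1 : ‖v‖ ≤ ∑' x, ‖f x‖ * B := by
    rw [← hfs.tsum_eq]
    refine tsum_of_norm_bounded (hfn.mul_right B).hasSum fun x => ?_
    rw [norm_mul]
    exact mul_le_mul_of_nonneg_left (hP _) (norm_nonneg _)
  rw [tsum_mul_right] at h1
  rw [div_le_iff₀ hB]
  rw [hf] at h1
  exact h1

lemma choose_far {G : Type*} [Group G] [Infinite G] (E : Set G) (hE : E.Finite) :
    ∃ x : ℕ → G, ∀ s t, s ≠ t → x s * (x t)⁻¹ ∉ E := by
  let r : G → G → Prop := fun x y => x * y⁻¹ ∉ E ∧ y * x⁻¹ ∉ E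
  have : Std.Symm r := ⟨fun x y h => ⟨h.2, h.1⟩⟩
  obtain ⟨f, -, hf⟩ := exists_seq_of_forall_finset_exists' (fun _ : G => True) r (by
    intro s _
    have h1 : (⋃ x ∈ s, ((fun y => y * x⁻¹) ⁻¹' E ∪ (fun y => x * y⁻¹) ⁻¹' E)).Finite := by
      refine Set.Finite.biUnion s.finite_toSet fun x _ => ?_
      refine Set.Finite.union (hE.preimage ?_) (hE.preimage ?_)
      · exact (mul_left_injective _).injOn
      · intro y _ y' _ h
        exact inv_injective (mul_right_injective x h)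
    obtain ⟨y, hy⟩ := h1.infinite_compl.nonempty
    refine ⟨y, trivial, fun x hx => ?_⟩
    simp only [Set.mem_compl_iff, Set.mem_iUnion, Set.mem_union, Set.mem_preimage, not_exists,
      not_or] at hy
    exact ⟨(hy x hx).2, (hy x hx).1⟩)
  exact ⟨f, fun s t h => (hf h).1⟩

/-- for `m` finitely supported elements and any `m + 1` different generators -/
theorem gen2 {ι : Type*} {m : ℕ} (a : Fin (m + 1) → ι) (ha : Function.Injective a)
    (b : Fin m → FreeGroup ι →₀ ℂ) (hb : ∀ i, ∑ y ∈ (b i).support, b i y = 0) :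
    ∃ k : Fin (m + 1), ∀ N : ℕ, ∃ (x : Fin N → FreeGroup ι) (δ : ℝ), 0 < δ ∧
      ∀ (l : Fin N → ℂ) (c : Fin m → FreeGroup ι → ℂ), (∀ i, Summable (c i)) →
      δ * ∑ t, ‖l t‖ ≤ ∑' z, ‖(∑ t, l t * (Set.indicator {x t} 1 z -
        Set.indicator {FreeGroup.of (a k) * x t} 1 z) : ℂ) -
          ∑ i, ∑' y, b i y * c i (y⁻¹ * z)‖ := by
  -- kill the other letters
  obtain ⟨π, hπ⟩ : ∃ π : FreeGroup ι →* FreeGroup (Fin (m + 1)), ∀ k, π (FreeGroup.of (a k)) =
      FreeGroup.of k := by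
    refine ⟨FreeGroup.lift fun i => if h : ∃ k, a k = i then FreeGroup.of h.choose else 1, ?_⟩
    intro k
    rw [FreeGroup.lift_apply_of]
    have h : ∃ k', a k' = a k := ⟨k, rfl⟩
    rw [dif_pos h]
    congr 1
    exact ha h.choose_spec
  have hsec : ∀ g, π (FreeGroup.map a g) = g := by
    intro g
    have h1 : π.comp (FreeGroup.map a) = MonoidHom.id _ := by
      ext k
      simp [hπ]
    exact DFunLike.congr_fun h1 g
  obtain ⟨P, B, k, hB, hP, hne, hz, hdec⟩ := pot2 (m := m)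
    (fun i => (b i).mapDomain π) (by simp) (fun i => by
    have h1 := mapDomain_pair (π : FreeGroup ι → FreeGroup (Fin (m + 1))) (b i) (fun _ => 1)
    simp only [mul_one] at h1
    rw [h1]
    exact hb i)
  refine ⟨k, fun N => ?_⟩
  set D : ℝ := ‖P 1 - P (FreeGroup.of k)⁻¹‖ with hD
  have hD0 : 0 < D := norm_pos_iff.2 (sub_ne_zero.2 hne)
  have hε : 0 < D / (2 * (N + 1)) := by positivity
  obtain ⟨x0, hx0⟩ := choose_far _ (hdec (D / (2 * (N + 1))) hε)
  refine ⟨fun t => FreeGroup.map a (x0 t), D / (2 * (N + 1)) / B, by positivity, ?_⟩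
  intro l c hc
  rcases Nat.eq_zero_or_pos N with hN | hN
  · subst hN
    simp only [Finset.univ_eq_empty, Finset.sum_empty, mul_zero]
    exact tsum_nonneg fun z => norm_nonneg _
  have : Nonempty (Fin N) := ⟨⟨0, hN⟩⟩
  obtain ⟨s, hs⟩ := Finite.exists_max (fun t : Fin N => ‖l t‖)
  -- the translated potential
  set Q : FreeGroup ι → ℂ := fun z => P (x0 s * π z) with hQ
  have hQz : ∀ i z, ∑ y ∈ (b i).support, b i y * Q (z * y⁻¹) = 0 := by
    intro i z
    have h2 := hz i (x0 s * π z)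
    rw [mapDomain_pair (π : FreeGroup ι → FreeGroup (Fin (m + 1))) (b i)
      (fun y => P (x0 s * π z * y⁻¹))] at h2
    simpa only [hQ, map_mul, map_inv, mul_assoc] using h2
  have hone : ∀ t : Fin N, HasSum (fun z => (l t * (Set.indicator {FreeGroup.map a (x0 t)} 1 z -
        Set.indicator {FreeGroup.of (a k) * FreeGroup.map a (x0 t)} 1 z) : ℂ) * Q z⁻¹)
      (l t * (P (x0 s * (x0 t)⁻¹) - P (x0 s * (x0 t)⁻¹ * (FreeGroup.of k)⁻¹))) := by
    intro t
    have h1 : ∀ u : FreeGroup ι, HasSum (fun z => (Set.indicator {u} 1 z : ℂ) * Q z⁻¹) (Q u⁻¹) := by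
      intro u
      have h2 := hasSum_ite_eq u (Q u⁻¹)
      refine h2.congr_fun fun z => ?_
      by_cases h : z = u
      · subst h; simp
      · rw [if_neg h, Set.indicator_of_notMem (by simpa using h), zero_mul]
    have h3 := ((h1 (FreeGroup.map a (x0 t))).sub
      (h1 (FreeGroup.of (a k) * FreeGroup.map a (x0 t)))).mul_left (l t)
    have h4 : Q (FreeGroup.map a (x0 t))⁻¹ = P (x0 s * (x0 t)⁻¹) := by
      simp only [hQ, map_inv, hsec]
    have h5 : Q (FreeGroup.of (a k) * FreeGroup.map a (x0 t))⁻¹ =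
        P (x0 s * (x0 t)⁻¹ * (FreeGroup.of k)⁻¹) := by
      simp only [hQ, map_inv, map_mul, hsec, hπ, mul_inv_rev, mul_assoc]
    rw [h4, h5] at h3
    refine h3.congr_fun fun z => ?_
    ring
  have hsum : ∀ t : Fin N, Summable (fun z => (l t * (Set.indicator {FreeGroup.map a (x0 t)} 1 z -
        Set.indicator {FreeGroup.of (a k) * FreeGroup.map a (x0 t)} 1 z) : ℂ)) := by
    intro t
    have h1 : ∀ u : FreeGroup ι, Summable (fun z => (Set.indicator {u} 1 z : ℂ)) := by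
      intro u
      refine summable_of_hasFiniteSupport ((Set.finite_singleton u).subset ?_)
      exact Set.support_indicator_subset
    exact ((h1 _).sub (h1 _)).mul_left _
  have hpair := pair_gen b Q B hB (fun z => hP _) hQz
    (fun z => ∑ t, (l t * (Set.indicator {FreeGroup.map a (x0 t)} 1 z -
        Set.indicator {FreeGroup.of (a k) * FreeGroup.map a (x0 t)} 1 z) : ℂ))
    (summable_sum fun t _ => hsum t)
    (∑ t, l t * (P (x0 s * (x0 t)⁻¹) - P (x0 s * (x0 t)⁻¹ * (FreeGroup.of k)⁻¹)))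
    (by
      have h1 := hasSum_sum fun t (_ : t ∈ (Finset.univ : Finset (Fin N))) => hone t
      refine h1.congr_fun fun z => ?_
      rw [Finset.sum_mul]) c hc
  refine le_trans ?_ hpair
  rw [div_mul_eq_mul_div]
  refine div_le_div_of_nonneg_right ?_ hB.le
  -- diagonal dominance
  have hoff : ∀ t, t ≠ s → ‖l t * (P (x0 s * (x0 t)⁻¹) - P (x0 s * (x0 t)⁻¹ * (FreeGroup.of k)⁻¹))‖ ≤
      ‖l s‖ * (D / (2 * (N + 1))) := by
    intro t ht
    rw [norm_mul]
    refine mul_le_mul (hs t) ?_ (norm_nonneg _) (norm_nonneg _)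
    have h1 := hx0 s t (fun h => ht (Fin.ext h).symm)
    rw [Set.mem_ofPred_eq, not_le, norm_sub_rev] at h1
    exact h1.le
  have hdiag : ‖l s * (P (x0 s * (x0 s)⁻¹) - P (x0 s * (x0 s)⁻¹ * (FreeGroup.of k)⁻¹))‖ =
      ‖l s‖ * D := by
    rw [norm_mul, mul_inv_cancel, one_mul]
  have h1 : ‖l s‖ * D - N * (‖l s‖ * (D / (2 * (N + 1)))) ≤
      ‖∑ t, l t * (P (x0 s * (x0 t)⁻¹) - P (x0 s * (x0 t)⁻¹ * (FreeGroup.of k)⁻¹))‖ := by
    rw [← Finset.add_sum_erase _ _ (Finset.mem_univ s)]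
    have h2 : ‖∑ t ∈ Finset.univ.erase s, l t * (P (x0 s * (x0 t)⁻¹) -
        P (x0 s * (x0 t)⁻¹ * (FreeGroup.of k)⁻¹))‖ ≤ N * (‖l s‖ * (D / (2 * (N + 1)))) := by
      refine (norm_sum_le _ _).trans ?_
      refine (Finset.sum_le_card_nsmul _ _ _ fun t ht => hoff t (Finset.ne_of_mem_erase ht)).trans ?_
      rw [nsmul_eq_mul]
      refine mul_le_mul_of_nonneg_right ?_ (by positivity)
      have h3 : (Finset.univ.erase s).card ≤ N := by
        refine (Finset.card_erase_le).trans ?_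
        simp
      exact_mod_cast h3
    have h3 := norm_sub_le_norm_add (l s * (P (x0 s * (x0 s)⁻¹) -
      P (x0 s * (x0 s)⁻¹ * (FreeGroup.of k)⁻¹))) (∑ t ∈ Finset.univ.erase s, l t *
      (P (x0 s * (x0 t)⁻¹) - P (x0 s * (x0 t)⁻¹ * (FreeGroup.of k)⁻¹)))
    rw [hdiag] at h3
    linarith
  have h2 : ∑ t, ‖l t‖ ≤ N * ‖l s‖ := by
    refine (Finset.sum_le_card_nsmul _ _ _ fun t _ => hs t).trans ?_
    simp
  refine le_trans ?_ h1
  have hN1 : (0 : ℝ) < N + 1 := by positivity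
  have h3 : D / (2 * (N + 1)) * ∑ t, ‖l t‖ ≤ D / (2 * (N + 1)) * (N * ‖l s‖) :=
    mul_le_mul_of_nonneg_left h2 hε.le
  have h4 : ‖l s‖ * D - N * (‖l s‖ * (D / (2 * (N + 1)))) - D / (2 * (N + 1)) * (N * ‖l s‖) =
      ‖l s‖ * D / (N + 1) := by
    field_simp
    ring
  have h5 : 0 ≤ ‖l s‖ * D / (N + 1) := by positivity
  linarith

/-- all but at most `m` generators -/
theorem main {ι : Type*} {m : ℕ} (b : Fin m → FreeGroup ι → ℂ)
    (hfin : ∀ i, (Function.support (b i)).Finite) (hb : ∀ i, ∑' x, b i x = 0) :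
    ∃ S : Finset ι, S.card ≤ m ∧ ∀ k, k ∉ S → ∀ N : ℕ,
      ∃ (x : Fin N → FreeGroup ι) (δ : ℝ), 0 < δ ∧
      ∀ (l : Fin N → ℂ) (c : Fin m → FreeGroup ι → ℂ), (∀ i, Summable (c i)) →
      δ * ∑ t, ‖l t‖ ≤ ∑' z, ‖(∑ t, l t * (Set.indicator {x t} 1 z -
        Set.indicator {FreeGroup.of k * x t} 1 z) : ℂ) -
          ∑ i, ∑' y, b i y * c i (y⁻¹ * z)‖ := by
  set good : ι → Prop := fun k => ∀ N : ℕ,
      ∃ (x : Fin N → FreeGroup ι) (δ : ℝ), 0 < δ ∧
      ∀ (l : Fin N → ℂ) (c : Fin m → FreeGroup ι → ℂ), (∀ i, Summable (c i)) →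
      δ * ∑ t, ‖l t‖ ≤ ∑' z, ‖(∑ t, l t * (Set.indicator {x t} 1 z -
        Set.indicator {FreeGroup.of k * x t} 1 z) : ℂ) -
          ∑ i, ∑' y, b i y * c i (y⁻¹ * z)‖ with hgood
  let b' : Fin m → FreeGroup ι →₀ ℂ := fun i => Finsupp.ofSupportFinite (b i) (hfin i)
  have hb' : ∀ i, ∑ y ∈ (b' i).support, b' i y = 0 := by
    intro i
    rw [← hb i]
    refine (tsum_eq_sum fun y hy => ?_).symm
    exact Finsupp.notMem_support_iff.1 hy
  have key : ∀ a : Fin (m + 1) → ι, Function.Injective a → ∃ k, good (a k) := by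
    intro a ha
    obtain ⟨k, hk⟩ := gen2 a ha b' hb'
    exact ⟨k, hk⟩
  have hbad : ∀ T : Finset ι, (∀ k ∈ T, ¬ good k) → T.card ≤ m := by
    intro T hT
    by_contra hlt
    push Not at hlt
    obtain ⟨T', hT', hc'⟩ := Finset.exists_subset_card_eq (Nat.succ_le_of_lt hlt)
    obtain ⟨k, hk⟩ := key (fun i => (T'.equivFinOfCardEq hc').symm i)
      (fun i j h => (T'.equivFinOfCardEq hc').symm.injective (Subtype.ext h))
    exact hT _ (hT' ((T'.equivFinOfCardEq hc').symm k).2) hk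
  have hfinbad : {k | ¬ good k}.Finite := by
    by_contra hinf
    obtain ⟨T, hT, hTc⟩ := Set.Infinite.exists_subset_card_eq hinf (m + 1)
    have := hbad T (fun k hk => hT hk)
    omega
  refine ⟨hfinbad.toFinset, hbad _ (fun k hk => (Set.Finite.mem_toFinset hfinbad).1 hk), fun k hk => ?_⟩
  by_contra h
  exact hk ((Set.Finite.mem_toFinset hfinbad).2 h)

/-- the case of one translate gives the generator itself -/
theorem one_of {ι : Type*} {m : ℕ} (b : Fin m → FreeGroup ι → ℂ) (k : ι)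
    (h : ∀ N : ℕ, ∃ (x : Fin N → FreeGroup ι) (δ : ℝ), 0 < δ ∧
      ∀ (l : Fin N → ℂ) (c : Fin m → FreeGroup ι → ℂ), (∀ i, Summable (c i)) →
      δ * ∑ t, ‖l t‖ ≤ ∑' z, ‖(∑ t, l t * (Set.indicator {x t} 1 z -
        Set.indicator {FreeGroup.of k * x t} 1 z) : ℂ) -
          ∑ i, ∑' y, b i y * c i (y⁻¹ * z)‖) :
    ∃ δ : ℝ, 0 < δ ∧ ∀ c : Fin m → FreeGroup ι → ℂ, (∀ i, Summable (c i)) →
      δ ≤ ∑' z, ‖(Set.indicator {1} 1 z - Set.indicator {FreeGroup.of k} 1 z : ℂ) -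
        ∑ i, ∑' y, b i y * c i (y⁻¹ * z)‖ := by
  obtain ⟨x, δ, hδ, hx⟩ := h 1
  refine ⟨δ, hδ, fun c hc => ?_⟩
  have h1 := hx (fun _ => 1) (fun i z => c i (z * (x 0)⁻¹)) (fun i =>
    (Equiv.mulRight (x 0)⁻¹).summable_iff.2 (hc i))
  simp only [Finset.univ_unique, Fin.default_eq_zero, Finset.sum_singleton, norm_one,
    mul_one, one_mul] at h1
  refine h1.trans (le_of_eq ?_)
  rw [← (Equiv.mulRight (x 0)).tsum_eq]
  refine tsum_congr fun z => ?_
  have e1 : (Set.indicator {x 0} 1 ((Equiv.mulRight (x 0)) z) : ℂ) = Set.indicator {1} 1 z := by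
    simp only [Set.indicator_apply, Set.mem_singleton_iff, Equiv.coe_mulRight, mul_eq_right, Pi.one_apply]
  have e2 : (Set.indicator {FreeGroup.of k * x 0} 1 ((Equiv.mulRight (x 0)) z) : ℂ) =
      Set.indicator {FreeGroup.of k} 1 z := by
    simp only [Set.indicator_apply, Set.mem_singleton_iff, Equiv.coe_mulRight, mul_left_inj, Pi.one_apply]
  rw [e1, e2]
  congr 2
  refine Finset.sum_congr rfl fun i _ => tsum_congr fun y => ?_
  simp only [Equiv.coe_mulRight, mul_assoc, mul_inv_cancel, mul_one]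

end Pool.Agent.H60.FG
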