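import Pool.Agent.H60.FG.Defs

set_option autoImplicit false

open scoped ENNReal NNReal
open scoped Classical

namespace Pool.Agent.H60.FG

open Pool.Agent.H14.NS

section

variable {ι : Type}

noncomputable def perm (ψ : ι × FreeGroup ι → ℂ) (k : ι) : Equiv.Perm (FreeGroup ι × ℂ) where
  toFun q := (q.1 * (FreeGroup.of k)⁻¹, q.2 + ψ (k, q.1))
  invFun q := (q.1 * FreeGroup.of k, q.2 - ψ (k, q.1 * FreeGroup.of k))
  left_inv q := by simp
  right_inv q := by simp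

lemma perm_fst (ψ : ι × FreeGroup ι → ℂ) (g : FreeGroup ι) : ∀ q : FreeGroup ι × ℂ,
    ((FreeGroup.lift (perm ψ) g : Equiv.Perm (FreeGroup ι × ℂ)) q).1 = q.1 * g⁻¹ := by
  induction g using FreeGroup.induction_on with
  | C1 => intro q; simp
  | of k =>
    intro q
    rw [FreeGroup.lift_apply_of]
    rfl
  | inv_of k h =>
    intro q
    rw [map_inv, FreeGroup.lift_apply_of]
    show q.1 * FreeGroup.of k = _
    simp
  | mul x y hx hy =>
    intro q
    rw [map_mul, Equiv.Perm.mul_apply, hx, hy, mul_inv_rev, mul_assoc]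

lemma exists_pot (ψ : ι × FreeGroup ι → ℂ) : ∃ P, P 1 = 0 ∧ Pot ψ P := by
  refine ⟨fun x => ((FreeGroup.lift (perm ψ) x⁻¹ : Equiv.Perm (FreeGroup ι × ℂ)) (1, 0)).2, ?_, ?_⟩
  · simp
  · intro k x
    simp only
    have h1 : (x * (FreeGroup.of k)⁻¹)⁻¹ = FreeGroup.of k * x⁻¹ := by group
    rw [h1, map_mul, Equiv.Perm.mul_apply, FreeGroup.lift_apply_of]
    have h2 := perm_fst ψ x⁻¹ (1, 0)
    rw [one_mul, inv_inv] at h2
    show (_ + ψ (k, _)) - _ = _
    rw [h2]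
    ring

lemma Pot.step {ψ : ι × FreeGroup ι → ℂ} {P : FreeGroup ι → ℂ} (h : Pot ψ P) (k : ι)
    (x : FreeGroup ι) : P (x * FreeGroup.of k) = P x - ψ (k, x * FreeGroup.of k) := by
  have := h k (x * FreeGroup.of k)
  rw [mul_inv_cancel_right] at this
  rw [← this]; ring

lemma exists_K (g : FreeGroup ι) : ∃ K : H (FreeGroup ι) ι →L[ℂ] L 2 (FreeGroup ι),
    ∀ (ψ : H (FreeGroup ι) ι) (P : FreeGroup ι → ℂ), Pot (fun q => ψ q) P →
      ∀ x, K ψ x = P (x * g⁻¹) - P x := by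
  induction g using FreeGroup.induction_on with
  | C1 => exact ⟨0, fun ψ P _ x => by simp⟩
  | of k =>
    refine ⟨compL 2 two_ne_top' (fun x => (k, x)) (inj_pair k), fun ψ P hP x => ?_⟩
    rw [compL_apply]
    exact (hP k x).symm
  | inv_of k h =>
    obtain ⟨K, hK⟩ := h
    refine ⟨- (compL 2 two_ne_top' (fun x => x * (FreeGroup.of k)⁻¹⁻¹) (inj_right _)) ∘L K,
      fun ψ P hP x => ?_⟩
    show - (K ψ (x * (FreeGroup.of k)⁻¹⁻¹)) = _
    rw [hK ψ P hP]
    simp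
  | mul g h hg hh =>
    obtain ⟨Kg, hKg⟩ := hg
    obtain ⟨Kh, hKh⟩ := hh
    refine ⟨Kh + (compL 2 two_ne_top' (fun x => x * h⁻¹) (inj_right h)) ∘L Kg,
      fun ψ P hP x => ?_⟩
    show Kh ψ x + Kg ψ (x * h⁻¹) = _
    rw [hKh ψ P hP, hKg ψ P hP, mul_inv_rev, mul_assoc]
    ring

noncomputable def K (g : FreeGroup ι) : H (FreeGroup ι) ι →L[ℂ] L 2 (FreeGroup ι) :=
  (exists_K g).choose

lemma K_apply {ψ : H (FreeGroup ι) ι} {P : FreeGroup ι → ℂ} (hP : Pot (fun q => ψ q) P)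
    (g x : FreeGroup ι) : K g ψ x = P (x * g⁻¹) - P x :=
  (exists_K g).choose_spec ψ P hP x

variable {m : ℕ}

noncomputable def Kb (b : FreeGroup ι →₀ ℂ) : H (FreeGroup ι) ι →L[ℂ] L 2 (FreeGroup ι) :=
  ∑ y ∈ b.support, b y • K y

lemma Kb_apply (b : FreeGroup ι →₀ ℂ) {ψ : H (FreeGroup ι) ι} {P : FreeGroup ι → ℂ}
    (hP : Pot (fun q => ψ q) P) (x : FreeGroup ι) :
    Kb b ψ x = ∑ y ∈ b.support, b y * (P (x * y⁻¹) - P x) := by
  unfold Kb
  rw [sum_apply, lp.coeFn_sum, Finset.sum_apply]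
  refine Finset.sum_congr rfl fun y _ => ?_
  show b y * K y ψ x = _
  rw [K_apply hP]

noncomputable def Op (b : Fin m → FreeGroup ι →₀ ℂ) :
    H (FreeGroup ι) ι →L[ℂ] H (FreeGroup ι) (Fin m) :=
  ∑ i, (extL (fun g => (i, g)) (inj_pair i)) ∘L (Kb (b i))

lemma Op_eq (b : Fin m → FreeGroup ι →₀ ℂ) (ψ : H (FreeGroup ι) ι) (i : Fin m)
    (x : FreeGroup ι) : Op b ψ (i, x) = Kb (b i) ψ x := by
  unfold Op
  rw [sum_apply, lp.coeFn_sum, Finset.sum_apply, Finset.sum_eq_single i]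
  · exact extL_apply (fun g => (i, g)) (inj_pair i) (Kb (b i) ψ) x
  · intro j _ hj
    exact extL_apply_ne (fun g => (j, g)) (inj_pair j) (Kb (b j) ψ) (i, x)
      fun g h => hj (Prod.ext_iff.1 h).1
  · intro h; exact absurd (Finset.mem_univ _) h

lemma Op_apply (b : Fin m → FreeGroup ι →₀ ℂ) {ψ : H (FreeGroup ι) ι} {P : FreeGroup ι → ℂ}
    (hP : Pot (fun q => ψ q) P) (i : Fin m) (x : FreeGroup ι) :
    Op b ψ (i, x) = ∑ y ∈ (b i).support, b i y * (P (x * y⁻¹) - P x) := by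
  rw [Op_eq, Kb_apply _ hP]

lemma pot_lam {ψ : H (FreeGroup ι) ι} {P : FreeGroup ι → ℂ} (hP : Pot (fun q => ψ q) P)
    (g : FreeGroup ι) : Pot (fun q => lam g ψ q) (fun x => P (g⁻¹ * x)) := by
  intro k x
  show P (g⁻¹ * (x * (FreeGroup.of k)⁻¹)) - P (g⁻¹ * x) = lam g ψ (k, x)
  rw [lam_apply, ← mul_assoc]
  exact hP k (g⁻¹ * x)

lemma Op_equi (b : Fin m → FreeGroup ι →₀ ℂ) : Equi (Op b) := by
  intro g v
  ext ⟨i, x⟩
  obtain ⟨P, -, hP⟩ := exists_pot (fun q => v q)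
  rw [lam_apply, Op_apply b (pot_lam hP g), Op_apply b hP]
  simp only [mul_assoc]

lemma adj_equi {X Z : Type*} {G : Type*} [Group G] {A : H G X →L[ℂ] H G Z} (hA : Equi A) :
    Equi (ContinuousLinearMap.adjoint A) := by
  intro g v
  refine ext_inner_right ℂ fun w => ?_
  rw [ContinuousLinearMap.adjoint_inner_left, lam_inner, lam_inner,
    ContinuousLinearMap.adjoint_inner_left, hA]

lemma ker_ne [Fintype ι] (b : Fin m → FreeGroup ι →₀ ℂ) (hm : m < Fintype.card ι) :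
    ∃ ψ : H (FreeGroup ι) ι, ψ ≠ 0 ∧ Op b ψ = 0 := by
  by_contra hcon
  push Not at hcon
  have h1 : (ContinuousLinearMap.adjoint (Op b)).range.topologicalClosure = ⊤ := by
    rw [Submodule.topologicalClosure_eq_top_iff, ContinuousLinearMap.orthogonal_range,
      ContinuousLinearMap.adjoint_adjoint]
    rw [Submodule.eq_bot_iff]
    intro ψ hψ
    by_contra hne
    exact hcon ψ hne hψ
  have h2 := rank_le (adj_equi (Op_equi b)) (fun y => by
    have : (bas y : H (FreeGroup ι) ι) ∈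
        (ContinuousLinearMap.adjoint (Op b)).range.topologicalClosure := by
      rw [h1]; trivial
    exact this)
  rw [Fintype.card_fin] at h2
  omega

end

end Pool.Agent.H60.FG
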