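import Pool.Agent.H60.FG.Cut
import Pool.Agent.H12.FG.G
import Pool.Agent.H76.FG.G4
import Pool.Agent.H57.FG.REC
import Pool.Agent.H93.FG.MIN

set_option autoImplicit false

open scoped ENNReal NNReal
open scoped Classical

namespace Pool.Agent.H60.FG

open Pool.Agent.H14.NS

theorem pf_TR (G2 : T_G2) : T_TR := by
  intro ι m b M ψ hψ p s hp d hd hB hE
  rw [lam_inner, inv_inv]
  refine hψ _ ?_ ?_
  · rw [Op_equi b p d, hd, map_zero]
  · rintro ⟨k, z⟩ hz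
    rw [lam_apply]
    by_contra hne
    have h1 : (k, p⁻¹ * z) ∈ Es s := by
      by_contra h; exact hne (hE _ h)
    have h2 : M < FreeGroup.norm (p⁻¹ * z) := by
      by_contra h
      push Not at h
      exact hne (hB _ h)
    have h3 := (G2 ι s p (p⁻¹ * z) hp h1.1).1
    rw [mul_inv_cancel_left] at h3
    have h4 : FreeGroup.norm z ≤ M := hz
    omega

lemma large_finite {ι : Type} (ψ : H (FreeGroup ι) ι) (k : ι) {ε : ℝ} (hε : 0 < ε) :
    {x : FreeGroup ι | ε ≤ ‖ψ (k, x)‖}.Finite := by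
  have h1 := (sq_summable ψ).tendsto_cofinite_zero
  have h2 : ∀ᶠ q in Filter.cofinite, ‖ψ q‖ ^ 2 < ε ^ 2 :=
    h1.eventually (gt_mem_nhds (by positivity))
  have h3 : {q : ι × FreeGroup ι | ¬ ‖ψ q‖ ^ 2 < ε ^ 2}.Finite := h2
  refine (h3.preimage (Function.Injective.injOn (inj_pair k))).subset ?_
  intro x hx
  show ¬ ‖ψ (k, x)‖ ^ 2 < ε ^ 2
  have h4 : ε ≤ ‖ψ (k, x)‖ := hx
  exact not_lt.2 (pow_le_pow_left₀ hε.le h4 2)

/-- the bounded potential -/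
theorem pot2 {ι : Type} [Fintype ι] {m : ℕ} (b : Fin m → FreeGroup ι →₀ ℂ)
    (hm : m < Fintype.card ι) (hb : ∀ i, ∑ y ∈ (b i).support, b i y = 0) :
    ∃ (P : FreeGroup ι → ℂ) (B : ℝ) (k : ι), 0 < B ∧ (∀ x, ‖P x‖ ≤ B) ∧
      P 1 ≠ P (FreeGroup.of k)⁻¹ ∧
      (∀ i x, ∑ y ∈ (b i).support, b i y * P (x * y⁻¹) = 0) ∧
      ∀ ε : ℝ, 0 < ε → {x | ε ≤ ‖P (x * (FreeGroup.of k)⁻¹) - P x‖}.Finite := by
  have G1 : T_G1 := Pool.Agent.H12.FG.pf_G1
  have G2 : T_G2 := Pool.Agent.H12.FG.pf_G2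
  obtain ⟨R, hR⟩ : ∃ R : ℕ, ∀ i, ∀ y ∈ (b i).support, FreeGroup.norm y ≤ R := by
    refine ⟨∑ i, ∑ y ∈ (b i).support, FreeGroup.norm y, fun i y hy => ?_⟩
    have h1 : FreeGroup.norm y ≤ ∑ y ∈ (b i).support, FreeGroup.norm y :=
      Finset.single_le_sum (f := fun y => FreeGroup.norm y) (fun _ _ => Nat.zero_le _) hy
    exact h1.trans (Finset.single_le_sum (f := fun i => ∑ y ∈ (b i).support, FreeGroup.norm y)
      (fun _ _ => Nat.zero_le _) (Finset.mem_univ i))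
  obtain ⟨C, hC1, hC⟩ := pf_M1 G1 ι m b R hR
  obtain ⟨ψ, hψ, ⟨k, hk⟩, hmin⟩ := Pool.Agent.H93.FG.pf_MIN ι m b (2 * R + 1) hm
  obtain ⟨P, hP1, hP⟩ := exists_pot (fun q => ψ q)
  obtain ⟨A, hA⟩ := Pool.Agent.H57.FG.REC.pf_REC G2 Pool.Agent.H12.FG.pf_G3
    Pool.Agent.H76.FG.G4.pf_G4 ι ψ (2 * R + 1) C (by omega) hC1 (fun p s hp => by
    refine hC s (lam p⁻¹ ψ) ?_ ?_
    · rw [Op_equi b p⁻¹ ψ, hψ, map_zero]
    · exact pf_TR G2 ι m b (2 * R + 1) ψ hmin p s hp) P hP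
  refine ⟨P, |A| + 1, k, by positivity, fun x => (hA x).trans ((le_abs_self A).trans (by linarith)),
    ?_, fun i x => ?_, fun ε hε => ?_⟩
  · intro h
    have h1 := hP k 1
    rw [one_mul, ← h, sub_self] at h1
    exact hk h1.symm
  · have h1 := Op_apply b hP i x
    rw [hψ] at h1
    have h2 : (0 : ℂ) = ∑ y ∈ (b i).support, b i y * (P (x * y⁻¹) - P x) := h1
    simp only [mul_sub] at h2
    rw [Finset.sum_sub_distrib, ← Finset.sum_mul, hb i, zero_mul, sub_zero] at h2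
    exact h2.symm
  · refine (large_finite ψ k hε).subset ?_
    intro x hx
    have h3 : ε ≤ ‖P (x * (FreeGroup.of k)⁻¹) - P x‖ := hx
    rw [hP k x] at h3
    exact h3

end Pool.Agent.H60.FG
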