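import Pool.Agent.H60.FG.Op

set_option autoImplicit false

open scoped ENNReal NNReal
open scoped Classical

namespace Pool.Agent.H60.FG

open Pool.Agent.H14.NS

/-- edges near the identity -/
def Bm {ι : Type*} (M : ℕ) : Set (ι × FreeGroup ι) := {q | FreeGroup.norm q.2 ≤ M}

/-- energy on a set of edges -/
noncomputable def en {κ : Type*} (E : Set κ) (ψ : κ → ℂ) : ℝ := ∑' q, if q ∈ E then ‖ψ q‖ ^ 2 else 0

/-- the minimal element -/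
def T_MIN : Prop := ∀ (ι : Type) [Fintype ι] (m : ℕ) (b : Fin m → FreeGroup ι →₀ ℂ) (M : ℕ),
  m < Fintype.card ι → ∃ ψ : H (FreeGroup ι) ι, Op b ψ = 0 ∧ (∃ k, ψ (k, 1) ≠ 0) ∧
    ∀ d : H (FreeGroup ι) ι, Op b d = 0 → (∀ q ∈ Bm M, d q = 0) → inner ℂ ψ d = 0

/-- the constant -/
def T_M1 : Prop := ∀ (ι : Type) [Fintype ι] (m : ℕ) (b : Fin m → FreeGroup ι →₀ ℂ) (R : ℕ),
  (∀ i, ∀ y ∈ (b i).support, FreeGroup.norm y ≤ R) →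
  ∃ C : ℝ, 1 ≤ C ∧ ∀ (s : ι × Bool) (ψ : H (FreeGroup ι) ι), Op b ψ = 0 →
    (∀ d : H (FreeGroup ι) ι, Op b d = 0 → (∀ q ∈ Bm (2 * R + 1), d q = 0) →
      (∀ q, q ∉ Es s → d q = 0) → inner ℂ ψ d = 0) →
    en (Es s) (fun q => ψ q) ≤ C * en (Es s ∩ Bm (2 * R + 1)) (fun q => ψ q)

/-- the recursion: decay implies that the potential is bounded -/
def T_REC : Prop := ∀ (ι : Type) (ψ : H (FreeGroup ι) ι) (M : ℕ) (C : ℝ), 1 ≤ M → 1 ≤ C →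
  (∀ (p : FreeGroup ι) (s : ι × Bool), RC p s →
    en (Es s) (fun q => lam p⁻¹ ψ q) ≤ C * en (Es s ∩ Bm M) (fun q => lam p⁻¹ ψ q)) →
  ∀ P : FreeGroup ι → ℂ, Pot (fun q => ψ q) P → ∃ A : ℝ, ∀ x, ‖P x‖ ≤ A

/-- translated orthogonality -/
def T_TR : Prop := ∀ (ι : Type) (m : ℕ) (b : Fin m → FreeGroup ι →₀ ℂ) (M : ℕ)
  (ψ : H (FreeGroup ι) ι),
  (∀ d : H (FreeGroup ι) ι, Op b d = 0 → (∀ q ∈ Bm M, d q = 0) → inner ℂ ψ d = 0) →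
  ∀ (p : FreeGroup ι) (s : ι × Bool), RC p s → ∀ d : H (FreeGroup ι) ι, Op b d = 0 →
    (∀ q ∈ Bm M, d q = 0) → (∀ q, q ∉ Es s → d q = 0) → inner ℂ (lam p⁻¹ ψ) d = 0

/-- the end: for every family of fewer than `n` finitely supported elements -/
def T_FIN : Prop := ∀ (ι : Type) [Fintype ι] (m : ℕ) (b : Fin m → FreeGroup ι →₀ ℂ),
  m < Fintype.card ι → (∀ i, ∑ y ∈ (b i).support, b i y = 0) →
  ∃ (k : ι) (δ : ℝ), 0 < δ ∧ ∀ c : Fin m → FreeGroup ι → ℂ, (∀ i, Summable (c i)) →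
    δ ≤ ∑' x, ‖(Set.indicator {1} 1 x - Set.indicator {FreeGroup.of k} 1 x : ℂ) -
        ∑ i, ∑' y, b i y * c i (y⁻¹ * x)‖

end Pool.Agent.H60.FG
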